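import Pool.Agent.Helper20.EP.Spec3

set_option autoImplicit false

open Polynomial Filter Topology MeasureTheory ProbabilityTheory

namespace Pool.Agent.Helper98.EPCOMB

open Pool.Agent.Helper20.EP

theorem norm_e (t y : ℝ) : ‖Complex.exp (t * Complex.I * (y : ℝ))‖ = 1 := by
  have h : (t : ℂ) * Complex.I * (y : ℂ) = ((t * y : ℝ) : ℂ) * Complex.I := by push_cast; ring
  rw [h, Complex.norm_exp_ofReal_mul_I]

theorem norm_e_sub (t x z : ℝ) :
    ‖Complex.exp (t * Complex.I * (x : ℝ)) - Complex.exp (t * Complex.I * (z : ℝ))‖ ≤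
      |t| * |x - z| := by
  have h1 : Complex.exp (t * Complex.I * (x : ℝ)) - Complex.exp (t * Complex.I * (z : ℝ)) =
      Complex.exp (t * Complex.I * (z : ℝ)) * (Complex.exp (Complex.I * ((t * (x - z) : ℝ) : ℂ)) - 1) := by
    rw [mul_sub, ← Complex.exp_add, mul_one]
    congr 2
    push_cast
    ring
  rw [h1, norm_mul, norm_e, one_mul, ← abs_mul]
  have h2 := Real.norm_exp_I_mul_ofReal_sub_one_le (x := t * (x - z))
  rwa [Real.norm_eq_abs] at h2

theorem main : S_COMB := by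
  classical
  intro N key G x z t ε hN hε hε1 h1 h2 h3 h4
  obtain ⟨c, hc⟩ : ∃ c, c = Complex.exp (-(t : ℂ) ^ 2 / 2) := ⟨_, rfl⟩
  have hcn : ‖c‖ ≤ 1 := by
    have h : (-(t : ℂ) ^ 2 / 2) = ((-t ^ 2 / 2 : ℝ) : ℂ) := by push_cast; ring
    rw [hc, h, Complex.norm_exp_ofReal]
    exact Real.exp_le_one_iff.2 (by nlinarith [sq_nonneg t])
  rw [← hc] at h1 ⊢
  have hN0 : (0 : ℝ) < N := by exact_mod_cast hN
  let A := Finset.Icc 1 N
  have hAc : (A.card : ℝ) = N := by simp [A]
  let e : ℝ → ℂ := fun y => Complex.exp (t * Complex.I * (y : ℝ))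
  have he : ∀ y, ‖e y‖ = 1 := fun y => norm_e t y
  have hes : ∀ a b, ‖e a - e b‖ ≤ |t| * |a - b| := fun a b => norm_e_sub t a b
  let cl : ℤ → Finset ℕ := fun s => A.filter (fun n => key n = s)
  let A' := A.filter (fun n => key n ∈ G)
  let B := A.filter (fun n => ¬ key n ∈ G)
  have hB : (B.card : ℝ) ≤ ε * N := by
    have : cnt N (fun n => key n ∉ G) = (B.card : ℝ) := by
      unfold cnt
      congr!
    rw [← this]; exact h3
  let E := A.filter (fun n => ε * (1 + |z n|) < |x n - z n|)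
  have hE : (E.card : ℝ) ≤ ε * N := by
    have : cnt N (fun n => ε * (1 + |z n|) < |x n - z n|) = (E.card : ℝ) := by
      unfold cnt
      congr!
    rw [← this]; exact h4
  -- fibers
  have hfib : ∀ {M : Type} [AddCommMonoid M] (f : ℕ → M),
      ∑ n ∈ A', f n = ∑ s ∈ G, ∑ n ∈ cl s, f n := by
    intro M _ f
    rw [← Finset.sum_fiberwise_of_maps_to (s := A') (t := G) (g := key)
      (fun n hn => (Finset.mem_filter.1 hn).2)]
    apply Finset.sum_congr rfl
    intro s hs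
    apply Finset.sum_congr _ (fun _ _ => rfl)
    ext n
    simp only [A', cl, Finset.mem_filter]
    constructor
    · rintro ⟨⟨ha, _⟩, hk⟩
      exact ⟨ha, hk⟩
    · rintro ⟨ha, hk⟩
      exact ⟨⟨ha, hk ▸ hs⟩, hk⟩
  have hcards : ∑ s ∈ G, ((cl s).card : ℝ) ≤ N := by
    have := hfib (fun _ => (1 : ℝ))
    simp only [Finset.sum_const, nsmul_eq_mul, mul_one] at this
    rw [← this, ← hAc]
    exact_mod_cast Finset.card_le_card (Finset.filter_subset _ _)
  -- the third part
  have hthird : ‖∑ n ∈ A', (e (z n) - c)‖ ≤ ε * N := by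
    rw [hfib]
    refine (norm_sum_le _ _).trans ?_
    calc ∑ s ∈ G, ‖∑ n ∈ cl s, (e (z n) - c)‖ ≤ ∑ s ∈ G, ε * ((cl s).card : ℝ) := by
          apply Finset.sum_le_sum
          intro s hs
          rw [Finset.sum_sub_distrib, Finset.sum_const, nsmul_eq_mul]
          exact h1 s hs
      _ = ε * ∑ s ∈ G, ((cl s).card : ℝ) := by rw [Finset.mul_sum]
      _ ≤ ε * N := mul_le_mul_of_nonneg_left hcards hε.le
  -- the squares
  have hsq : ∑ n ∈ A', z n ^ 2 ≤ 2 * N := by
    rw [hfib]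
    calc ∑ s ∈ G, ∑ n ∈ cl s, z n ^ 2 ≤ ∑ s ∈ G, 2 * ((cl s).card : ℝ) :=
          Finset.sum_le_sum fun s hs => h2 s hs
      _ = 2 * ∑ s ∈ G, ((cl s).card : ℝ) := by rw [Finset.mul_sum]
      _ ≤ 2 * N := by linarith
  have hA'c : (A'.card : ℝ) ≤ N := by
    rw [← hAc]
    exact_mod_cast Finset.card_le_card (Finset.filter_subset _ _)
  -- the second part
  have hsecond : ‖∑ n ∈ A', (e (x n) - e (z n))‖ ≤ 2 * (ε * N) + 3 * |t| * ε * N := by
    refine (norm_sum_le _ _).trans ?_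
    have hterm : ∀ n ∈ A', ‖e (x n) - e (z n)‖ ≤
        (if ε * (1 + |z n|) < |x n - z n| then 2 else 0) + |t| * ε * (3 / 2 + z n ^ 2 / 2) := by
      intro n _
      have ht0 : 0 ≤ |t| * ε := mul_nonneg (abs_nonneg t) hε.le
      have hz : |z n| ≤ 1 / 2 + z n ^ 2 / 2 := by
        nlinarith [sq_nonneg (|z n| - 1), sq_abs (z n)]
      split_ifs with hlt
      · have : ‖e (x n) - e (z n)‖ ≤ 2 := by
          refine (norm_sub_le _ _).trans ?_
          rw [he, he]; norm_num
        have h5 : 0 ≤ |t| * ε * (3 / 2 + z n ^ 2 / 2) := mul_nonneg ht0 (by positivity)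
        linarith
      · have h6 := hes (x n) (z n)
        have h7 : |x n - z n| ≤ ε * (1 + |z n|) := not_lt.1 hlt
        calc ‖e (x n) - e (z n)‖ ≤ |t| * |x n - z n| := h6
          _ ≤ |t| * (ε * (1 + |z n|)) := mul_le_mul_of_nonneg_left h7 (abs_nonneg t)
          _ = |t| * ε * (1 + |z n|) := by ring
          _ ≤ |t| * ε * (3 / 2 + z n ^ 2 / 2) := mul_le_mul_of_nonneg_left (by linarith) ht0
          _ ≤ 0 + |t| * ε * (3 / 2 + z n ^ 2 / 2) := by linarith
    refine (Finset.sum_le_sum hterm).trans ?_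
    rw [Finset.sum_add_distrib, ← Finset.mul_sum, Finset.sum_add_distrib, Finset.sum_const,
      nsmul_eq_mul, ← Finset.sum_div]
    have h8 : ∑ n ∈ A', (if ε * (1 + |z n|) < |x n - z n| then (2 : ℝ) else 0) ≤ 2 * (ε * N) := by
      rw [← Finset.sum_filter, Finset.sum_const, nsmul_eq_mul]
      have h9 : ((A'.filter fun n => ε * (1 + |z n|) < |x n - z n|).card : ℝ) ≤ (E.card : ℝ) := by
        exact_mod_cast Finset.card_le_card (Finset.filter_subset_filter _ (Finset.filter_subset _ _))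
      linarith
    have ht0 : 0 ≤ |t| * ε := mul_nonneg (abs_nonneg t) hε.le
    have h10 : |t| * ε * ((A'.card : ℝ) * (3 / 2) + (∑ n ∈ A', z n ^ 2) / 2) ≤
        |t| * ε * (3 * N) := mul_le_mul_of_nonneg_left (by linarith) ht0
    linarith
  -- the first part
  have hfirst : ‖∑ n ∈ B, (e (x n) - c)‖ ≤ 2 * (ε * N) := by
    refine (norm_sum_le _ _).trans ?_
    calc ∑ n ∈ B, ‖e (x n) - c‖ ≤ ∑ n ∈ B, (2 : ℝ) := by
          apply Finset.sum_le_sum
          intro n _
          refine (norm_sub_le _ _).trans ?_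
          rw [he]; linarith
      _ = 2 * B.card := by rw [Finset.sum_const, nsmul_eq_mul, mul_comm]
      _ ≤ 2 * (ε * N) := by linarith
  -- together
  have htot : ∑ n ∈ A, (e (x n) - c) = ∑ n ∈ A', (e (x n) - e (z n)) + ∑ n ∈ A', (e (z n) - c) +
      ∑ n ∈ B, (e (x n) - c) := by
    rw [← Finset.sum_add_distrib]
    have h11 : ∀ n ∈ A', e (x n) - e (z n) + (e (z n) - c) = e (x n) - c := fun n _ => by ring
    rw [Finset.sum_congr rfl h11]
    exact (Finset.sum_filter_add_sum_filter_not A (fun n => key n ∈ G) _).symm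
  have hfin : (∑ n ∈ Finset.Icc 1 N, Complex.exp (t * Complex.I * (x n : ℝ))) / (N : ℂ) - c =
      (∑ n ∈ A, (e (x n) - c)) / (N : ℂ) := by
    have hN0' : (N : ℂ) ≠ 0 := by exact_mod_cast hN0.ne'
    rw [Finset.sum_sub_distrib, Finset.sum_const, nsmul_eq_mul, sub_div]
    have : (A.card : ℂ) = N := by simp [A]
    rw [this, mul_div_cancel_left₀ _ hN0']
  rw [hfin, norm_div, Complex.norm_natCast, div_le_iff₀ hN0, htot]
  have h12 := norm_add₃_le (a := ∑ n ∈ A', (e (x n) - e (z n))) (b := ∑ n ∈ A', (e (z n) - c))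
    (c := ∑ n ∈ B, (e (x n) - c))
  nlinarith [h12, hfirst, hsecond, hthird]

end Pool.Agent.Helper98.EPCOMB
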