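import Pool.Agent.Helper20.EP.Spec3

set_option autoImplicit false

open Polynomial Filter Topology

namespace Pool.Agent.Helper98.EPQPR

open Pool.Agent.Helper20.EP

theorem ev_ll (K : ℝ) : ∃ N₀ : ℕ, ∀ N : ℕ, N₀ ≤ N → K ≤ Real.sqrt (ll N) := by
  have h1 : Tendsto (fun N : ℕ => Real.sqrt (ll N)) atTop atTop := by
    unfold ll
    exact Real.tendsto_sqrt_atTop.comp
      (Real.tendsto_log_atTop.comp (Real.tendsto_log_atTop.comp tendsto_natCast_atTop_atTop))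
  obtain ⟨N₀, hN₀⟩ := eventually_atTop.1 (h1.eventually_ge_atTop K)
  exact ⟨N₀, hN₀⟩

/-- few large prime factors -/
theorem few_large (q : ℕ) (M c : ℝ) (hq : 1 ≤ q) (hc : 0 < c) (hM : 2 ≤ M) (hqM : (q : ℝ) ≤ M)
    (S : Finset ℕ) (hS : S ⊆ q.primeFactors) (hS2 : ∀ p ∈ S, M ^ c < (p : ℝ)) :
    (S.card : ℝ) ≤ 1 / c := by
  have hM0 : (0 : ℝ) < M := by linarith
  have h1 : ∏ p ∈ S, p ∣ q := by
    refine (Finset.prod_dvd_prod_of_subset _ _ _ hS).trans ?_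
    exact Nat.prod_primeFactors_dvd q
  have h2 : ((∏ p ∈ S, p : ℕ) : ℝ) ≤ M := by
    refine le_trans ?_ hqM
    exact_mod_cast Nat.le_of_dvd hq h1
  have h3 : (M ^ c) ^ S.card ≤ ((∏ p ∈ S, p : ℕ) : ℝ) := by
    rw [← Finset.prod_const]
    push_cast
    refine Finset.prod_le_prod (fun i _ => (Real.rpow_pos_of_pos hM0 c).le) ?_
    intro p hp
    exact (hS2 p hp).le
  have h4 : M ^ (c * S.card) ≤ M ^ (1 : ℝ) := by
    rw [Real.rpow_one, Real.rpow_mul hM0.le, Real.rpow_natCast]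
    exact h3.trans h2
  have h5 : c * S.card ≤ 1 := (Real.rpow_le_rpow_left_iff (by linarith)).1 h4
  rw [le_div_iff₀ hc]
  linarith

theorem main (hD : S_DIVA) (hO : S_OMR) : S_QPR := by
  classical
  intro f hf ε hε
  obtain ⟨c, M₁, hc, hc1, hdiv⟩ := hD f.natDegree hf
  obtain ⟨N₁, hN₁⟩ := hO (ε ^ 2 / 4) (by positivity)
  obtain ⟨N₂, hN₂⟩ := ev_ll (max (4 / ε ^ 2) (2 / (c * ε)))
  refine ⟨max M₁ 2, max (max N₁ N₂) 1, ?_⟩
  intro N q F T M hN hdat hM hMN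
  have hNN₁ : N₁ ≤ N := le_trans (le_trans (le_max_left _ _) (le_max_left _ _)) hN
  have hNN₂ : N₂ ≤ N := le_trans (le_trans (le_max_right _ _) (le_max_left _ _)) hN
  have hN1 : 1 ≤ N := le_trans (le_max_right _ _) hN
  have hM1 : M₁ ≤ M := le_trans (le_max_left _ _) hM
  have hM2 : 2 ≤ M := le_trans (le_max_right _ _) hM
  have hM0 : 0 < M := by linarith
  set L : ℝ := Real.sqrt (ll N) with hL
  have hLK := hN₂ N hNN₂
  have hL1 : 4 / ε ^ 2 ≤ L := le_trans (le_max_left _ _) hLK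
  have hL2 : 2 / (c * ε) ≤ L := le_trans (le_max_right _ _) hLK
  have hLpos : 0 < L := lt_of_lt_of_le (by positivity) hL1
  have hq1 : 1 ≤ q := hdat.q_pos
  have hqM : (q : ℝ) ≤ M := by
    rw [hdat.hM]
    have h1 : (1 : ℝ) ≤ q := by exact_mod_cast hq1
    have h2 := hdat.T_nn
    nlinarith
  have hqN : q ≤ N ^ 2 := by
    have h1 : (q : ℝ) ≤ (N : ℝ) ^ 2 := by
      have h2 : M ≤ M ^ 2 := by nlinarith
      have h3 : (1 : ℝ) ≤ N := by exact_mod_cast hN1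
      nlinarith
    exact_mod_cast h1
  have hom : ∑ p ∈ q.primeFactors, (1 : ℝ) / p ≤ ε ^ 2 / 4 * L := hN₁ N hNN₁ q hq1 hqN
  -- the two sets of primes
  set P1 : Finset ℕ := q.primeFactors.filter fun p => (p : ℝ) ≤ M ^ c with hP1
  set P2 : Finset ℕ := q.primeFactors.filter fun p => ¬ (p : ℝ) ≤ M ^ c with hP2
  have hMc : 0 < M ^ c := Real.rpow_pos_of_pos hM0 c
  have hP2c : (P2.card : ℝ) ≤ 1 / c := by
    refine few_large q M c hq1 hc hM2 hqM P2 (Finset.filter_subset _ _) ?_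
    intro p hp
    have := (Finset.mem_filter.1 hp).2
    exact not_le.1 this
  have hP1c : (P1.card : ℝ) ≤ M ^ c := by
    have h1 : P1 ⊆ Finset.Icc 1 ⌊M ^ c⌋₊ := by
      intro p hp
      have h2 := Finset.mem_filter.1 hp
      rw [Finset.mem_Icc]
      exact ⟨(Nat.prime_of_mem_primeFactors h2.1).one_le, Nat.le_floor h2.2⟩
    have h3 := Finset.card_le_card h1
    rw [Nat.card_Icc, Nat.add_sub_cancel] at h3
    exact le_trans (by exact_mod_cast h3) (Nat.floor_le hMc.le)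
  -- the number of divisors in P1
  let X1 : ℕ → ℕ := fun n => (P1.filter fun p : ℕ => (p : ℤ) ∣ ⌊f.eval (n : ℝ)⌋).card
  have hsum : ∑ n ∈ Finset.Icc 1 N, (X1 n : ℝ) ≤ N * (ε ^ 2 / 4 * L + 1) := by
    have h1 : ∑ n ∈ Finset.Icc 1 N, (X1 n : ℝ) =
        ∑ p ∈ P1, cnt N (fun n => (p : ℤ) ∣ ⌊f.eval (n : ℝ)⌋) := by
      simp only [X1, cnt, Finset.card_filter]
      push_cast
      rw [Finset.sum_comm]
    rw [h1]
    have h2 : ∀ p ∈ P1, cnt N (fun n => (p : ℤ) ∣ ⌊f.eval (n : ℝ)⌋) ≤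
        N * ((1 : ℝ) / p) + N * M ^ (-c) := by
      intro p hp
      have hp2 := Finset.mem_filter.1 hp
      have h3 := hdiv f N q F T M rfl hN1 hdat hM1 p
        (Nat.prime_of_mem_primeFactors hp2.1).one_le hp2.2
      have h4 := (abs_le.1 h3).2
      have h5 : (N : ℝ) * (1 / p) = N / p := by ring
      rw [h5]
      linarith
    refine (Finset.sum_le_sum h2).trans ?_
    rw [Finset.sum_add_distrib, Finset.sum_const, nsmul_eq_mul, ← Finset.mul_sum]
    have h6 : ∑ p ∈ P1, (1 : ℝ) / p ≤ ε ^ 2 / 4 * L := by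
      refine le_trans ?_ hom
      exact Finset.sum_le_sum_of_subset_of_nonneg (Finset.filter_subset _ _)
        (fun i _ _ => by positivity)
    have h7 : (P1.card : ℝ) * M ^ (-c) ≤ 1 := by
      rw [Real.rpow_neg hM0.le]
      calc (P1.card : ℝ) * (M ^ c)⁻¹ ≤ M ^ c * (M ^ c)⁻¹ := by
            exact mul_le_mul_of_nonneg_right hP1c (by positivity)
        _ = 1 := mul_inv_cancel₀ hMc.ne'
    have hNnn : (0 : ℝ) ≤ N := Nat.cast_nonneg N
    calc (N : ℝ) * ∑ p ∈ P1, (1 : ℝ) / p + P1.card * (N * M ^ (-c))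
        = N * (∑ p ∈ P1, (1 : ℝ) / p) + N * (P1.card * M ^ (-c)) := by ring
      _ ≤ N * (ε ^ 2 / 4 * L) + N * 1 :=
          add_le_add (mul_le_mul_of_nonneg_left h6 hNnn) (mul_le_mul_of_nonneg_left h7 hNnn)
      _ = N * (ε ^ 2 / 4 * L + 1) := by ring
  -- Markov
  set B : Finset ℕ := (Finset.Icc 1 N).filter fun n => ε * L <
        ((q.primeFactors.filter fun p : ℕ => (p : ℤ) ∣ ⌊f.eval (n : ℝ)⌋).card : ℝ) with hB
  have hBX : ∀ n ∈ B, ε / 2 * L ≤ (X1 n : ℝ) := by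
    intro n hn
    have h1 := (Finset.mem_filter.1 hn).2
    have h2 : (q.primeFactors.filter fun p : ℕ => (p : ℤ) ∣ ⌊f.eval (n : ℝ)⌋).card ≤
        X1 n + P2.card := by
      have h3 : (q.primeFactors.filter fun p : ℕ => (p : ℤ) ∣ ⌊f.eval (n : ℝ)⌋) ⊆
          (P1.filter fun p : ℕ => (p : ℤ) ∣ ⌊f.eval (n : ℝ)⌋) ∪ P2 := by
        intro p hp
        have h4 := Finset.mem_filter.1 hp
        by_cases h5 : (p : ℝ) ≤ M ^ c
        · exact Finset.mem_union_left _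
            (Finset.mem_filter.2 ⟨Finset.mem_filter.2 ⟨h4.1, h5⟩, h4.2⟩)
        · exact Finset.mem_union_right _ (Finset.mem_filter.2 ⟨h4.1, h5⟩)
      exact (Finset.card_le_card h3).trans (Finset.card_union_le _ _)
    have h6 : ((q.primeFactors.filter fun p : ℕ => (p : ℤ) ∣ ⌊f.eval (n : ℝ)⌋).card : ℝ) ≤
        X1 n + P2.card := by exact_mod_cast h2
    have h7 : 1 / c ≤ ε / 2 * L := by
      rw [div_le_iff₀ (by positivity)] at hL2
      rw [div_le_iff₀ hc]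
      nlinarith
    linarith
  have hmark : (B.card : ℝ) * (ε / 2 * L) ≤ N * (ε ^ 2 / 4 * L + 1) := by
    refine le_trans ?_ hsum
    calc (B.card : ℝ) * (ε / 2 * L) = ∑ n ∈ B, (ε / 2 * L) := by
          rw [Finset.sum_const, nsmul_eq_mul]
      _ ≤ ∑ n ∈ B, (X1 n : ℝ) := Finset.sum_le_sum hBX
      _ ≤ ∑ n ∈ Finset.Icc 1 N, (X1 n : ℝ) :=
          Finset.sum_le_sum_of_subset_of_nonneg (Finset.filter_subset _ _)
            (fun i _ _ => Nat.cast_nonneg _)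
  have hone : 1 ≤ ε ^ 2 / 4 * L := by
    rw [div_le_iff₀ (by positivity)] at hL1
    nlinarith
  have hNnn : (0 : ℝ) ≤ N := Nat.cast_nonneg N
  have hfin : (B.card : ℝ) * (ε / 2 * L) ≤ (ε * N) * (ε / 2 * L) := by
    refine hmark.trans ?_
    calc (N : ℝ) * (ε ^ 2 / 4 * L + 1) ≤ N * (ε ^ 2 / 4 * L + ε ^ 2 / 4 * L) :=
          mul_le_mul_of_nonneg_left (by linarith) hNnn
      _ = (ε * N) * (ε / 2 * L) := by ring
  have hpos : 0 < ε / 2 * L := by positivity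
  have hres : (B.card : ℝ) ≤ ε * N := le_of_mul_le_mul_right hfin hpos
  unfold cnt
  convert hres using 3

end Pool.Agent.Helper98.EPQPR
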